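import Mathlib
import Pool.Agent.H52.LB11

/-!
# MP_a78e8f_nt : a lower bound for the Elliott–Halberstam sum beyond the square root

For `x ^ (1/2 + δ) ≤ Q ≤ x`, all but `Q x ^ (-δ/16)` of the moduli `q` in `(Q, 2Q]` have variance
`∑_a (π(x;q,a) - π(x)/φ(q))² ≥ 2⁻²⁷ δ x / log x`, hence `E(x;q) ≥ (2⁻²⁷ δ x / (φ(q) log x))^(1/2)`;
and for every `1/2 < θ ≤ 1` the Elliott–Halberstam sum is at least
`2⁻¹⁷ (2θ-1)^(1/2) x^((1+θ)/2) (log x)^(-1/2)` for all large `x`.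
-/

set_option autoImplicit false

open Finset

namespace Pool.Agent.Results.MP_a78e8f_nt.LowerBoundForTheSum

open Pool.Agent.H52

/-- `π(x;q,a) - π(x)/φ(q)` for a residue `a` -/
noncomputable def Δ (x q a : ℕ) : ℝ :=
  (((Icc 1 x).filter (fun p : ℕ => Nat.Prime p ∧ p % q = a)).card : ℝ) -
    (Nat.primeCounting x : ℝ) / (Nat.totient q : ℝ)

/-- the variance `∑_{a mod q, (a,q)=1} (π(x;q,a) - π(x)/φ(q))²` -/
noncomputable def V (x q : ℕ) : ℝ := ∑ a ∈ (range q).filter (fun a => a.Coprime q), Δ x q a ^ 2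

/-- `E(x;q)`, the largest error over the reduced classes, as in the problem -/
noncomputable def E (x q : ℕ) : ℝ :=
  ⨆ a : (ZMod q)ˣ,
    |(((Finset.Icc 1 x).filter
        (fun p : ℕ => Nat.Prime p ∧ ((p : ZMod q) = ((a : (ZMod q)ˣ) : ZMod q)))).card : ℝ)
      - (Nat.primeCounting x : ℝ) / (Nat.totient q : ℝ)|

/-- the sum `S_θ(x)` of the problem -/
noncomputable def S (θ : ℝ) (x : ℕ) : ℝ := ∑ q ∈ Finset.Icc 1 ⌊(x : ℝ) ^ θ⌋₊, E x q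

lemma V_eq (x q : ℕ) : V x q = VV x q ((Nat.primeCounting x : ℝ) / Nat.totient q) := rfl

lemma E_ge (x q a : ℕ) (hq : 0 < q) (ha : a < q) (hc : a.Coprime q) : |Δ x q a| ≤ E x q := by
  have : NeZero q := ⟨hq.ne'⟩
  have h1 := le_ciSup (f := fun a : (ZMod q)ˣ =>
    |(((Finset.Icc 1 x).filter
        (fun p : ℕ => Nat.Prime p ∧ ((p : ZMod q) = ((a : (ZMod q)ˣ) : ZMod q)))).card : ℝ)
      - (Nat.primeCounting x : ℝ) / (Nat.totient q : ℝ)|) (Set.finite_range _).bddAbove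
      (ZMod.unitOfCoprime a hc)
  refine le_trans (le_of_eq ?_) h1
  unfold Δ
  simp only [ZMod.coe_unitOfCoprime]
  have h2 : (Icc 1 x).filter (fun p : ℕ => Nat.Prime p ∧ p % q = a) =
      (Finset.Icc 1 x).filter (fun p : ℕ => Nat.Prime p ∧ ((p : ZMod q) = ((a : ℕ) : ZMod q))) := by
    apply filter_congr
    intro p _
    rw [ZMod.natCast_eq_natCast_iff', Nat.mod_eq_of_lt ha]
  rw [h2]

lemma E_nonneg (x q : ℕ) : 0 ≤ E x q := Real.iSup_nonneg fun _ => abs_nonneg _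

lemma V_le (x q : ℕ) (hq : 0 < q) : V x q ≤ Nat.totient q * E x q ^ 2 := by
  unfold V
  have h5 : ((range q).filter (fun b => b.Coprime q)).card = Nat.totient q := by
    rw [Nat.totient_eq_card_coprime]
    congr 1
    ext b
    simp only [mem_filter, mem_range]
    rw [Nat.coprime_comm]
  rw [← h5, ← nsmul_eq_mul, ← sum_const]
  apply sum_le_sum
  intro a ha
  rw [mem_filter, mem_range] at ha
  rw [← sq_abs]
  exact pow_le_pow_left₀ (abs_nonneg _) (E_ge x q a hq ha.1 ha.2) 2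

lemma E_of_V (x q : ℕ) (hq : 0 < q) (c : ℝ) (h : c ≤ V x q) : Real.sqrt (c / Nat.totient q) ≤ E x q := by
  have hφ : (0 : ℝ) < Nat.totient q := by exact_mod_cast Nat.totient_pos.2 hq
  apply Real.sqrt_le_iff.2
  refine ⟨E_nonneg x q, ?_⟩
  rw [div_le_iff₀ hφ]
  have := V_le x q hq
  linarith

theorem part1 (δ : ℝ) (hδ : 0 < δ) (hδ2 : δ ≤ 1 / 2) : ∃ x0 : ℕ, ∀ x : ℕ, x0 ≤ x → ∀ Q : ℕ,
    (x : ℝ) ^ (1 / 2 + δ) ≤ Q → Q ≤ x →
    (((Ioc Q (2 * Q)).filter (fun q => ¬ (δ / 2 ^ 27 * (x / Real.log x) ≤ V x q ∧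
      Real.sqrt (δ / 2 ^ 27 * (x / Real.log x) / Nat.totient q) ≤ E x q))).card : ℝ) ≤
      Q * (x : ℝ) ^ (-(δ / 16)) := by
  obtain ⟨x0, hx0⟩ := almost_all δ hδ hδ2
  refine ⟨x0, fun x hx Q hQ1 hQ2 => le_trans ?_ (hx0 x hx Q hQ1 hQ2)⟩
  apply Nat.cast_le.2
  apply card_le_card
  intro q hq
  rw [mem_filter, mem_Ioc] at hq
  rw [mem_filter, mem_Ioc]
  refine ⟨hq.1, ?_⟩
  by_contra hcon
  push Not at hcon
  exact hq.2 ⟨hcon, E_of_V x q (by omega) _ hcon⟩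

open Filter in
theorem part2 (θ : ℝ) (hθ : 1 / 2 < θ) (hθ1 : θ ≤ 1) : ∃ x0 : ℕ, ∀ x : ℕ, x0 ≤ x →
    Real.sqrt (2 * θ - 1) / 2 ^ 17 * ((x : ℝ) ^ ((1 + θ) / 2) / Real.sqrt (Real.log x)) ≤ S θ x := by
  obtain ⟨δ, hδdef⟩ : ∃ δ : ℝ, δ = (θ - 1 / 2) / 2 := ⟨_, rfl⟩
  have hδ : 0 < δ := by linarith
  have hδ2 : δ ≤ 1 / 2 := by linarith
  obtain ⟨x0, hx0⟩ := part1 δ hδ hδ2
  have h1 : ∀ᶠ y : ℝ in atTop, 4 ≤ y ^ δ := (tendsto_rpow_atTop hδ).eventually_ge_atTop _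
  have h2 : ∀ᶠ y : ℝ in atTop, 2 ≤ y ^ (δ / 16) := (tendsto_rpow_atTop (by positivity)).eventually_ge_atTop _
  obtain ⟨y0, hy0⟩ := ((h1.and h2).and (eventually_ge_atTop (16 : ℝ))).exists_forall_of_atTop
  refine ⟨x0 + ⌈y0⌉₊, fun x hx => ?_⟩
  have hxy : y0 ≤ x := by
    have := Nat.le_ceil y0
    have h2 : ((⌈y0⌉₊ : ℕ) : ℝ) ≤ x := by exact_mod_cast (by omega : ⌈y0⌉₊ ≤ x)
    linarith
  obtain ⟨⟨e1, e2⟩, e3⟩ := hy0 x hxy
  have hx0R : (0 : ℝ) < x := by linarith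
  have hx1 : (1 : ℝ) ≤ x := by linarith
  have hlog : 0 < Real.log x := Real.log_pos (by linarith)
  set z : ℝ := (x : ℝ) ^ θ with hz
  have hz0 : 0 < z := by positivity
  have hzs : z = (x : ℝ) ^ (1 / 2 + δ) * (x : ℝ) ^ δ := by
    rw [← Real.rpow_add hx0R, hz]
    congr 1
    rw [hδdef]
    ring
  have hz4 : 4 * (x : ℝ) ^ (1 / 2 + δ) ≤ z := by
    rw [hzs, mul_comm]
    gcongr
  have hhalf : (4 : ℝ) ≤ (x : ℝ) ^ (1 / 2 + δ) := by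
    calc (4 : ℝ) ≤ (x : ℝ) ^ δ := e1
      _ ≤ (x : ℝ) ^ (1 / 2 + δ) := Real.rpow_le_rpow_of_exponent_le hx1 (by linarith)
  set Q : ℕ := ⌊z / 2⌋₊ with hQ
  have hQle : (Q : ℝ) ≤ z / 2 := Nat.floor_le (by positivity)
  have hQlt : z / 2 < Q + 1 := Nat.lt_floor_add_one _
  have hQ4 : z / 4 ≤ Q := by linarith
  have hQ0 : (0 : ℝ) < Q := by linarith
  have hQ1 : (x : ℝ) ^ (1 / 2 + δ) ≤ Q := by linarith
  have hzx : z ≤ x := by
    calc z ≤ (x : ℝ) ^ (1 : ℝ) := Real.rpow_le_rpow_of_exponent_le hx1 hθ1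
      _ = x := Real.rpow_one _
  have hQx : Q ≤ x := by
    have : (Q : ℝ) ≤ x := by linarith
    exact_mod_cast this
  have hbad := hx0 x (by omega) Q hQ1 hQx
  set c0 : ℝ := δ / 2 ^ 27 * (x / Real.log x) with hc0
  have hc0pos : 0 < c0 := by positivity
  -- the good set
  have hgood : (Q : ℝ) / 2 ≤ (((Ioc Q (2 * Q)).filter (fun q => (c0 ≤ V x q ∧
      Real.sqrt (c0 / Nat.totient q) ≤ E x q))).card : ℝ) := by
    have h3 : (((Ioc Q (2 * Q)).filter (fun q => (c0 ≤ V x q ∧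
        Real.sqrt (c0 / Nat.totient q) ≤ E x q))).card : ℝ) +
        (((Ioc Q (2 * Q)).filter (fun q => ¬ (c0 ≤ V x q ∧
        Real.sqrt (c0 / Nat.totient q) ≤ E x q))).card : ℝ) = Q := by
      rw [← Nat.cast_add, card_filter_add_card_filter_not, Nat.card_Ioc]
      congr 1
      omega
    have h4 : (x : ℝ) ^ (-(δ / 16)) ≤ 1 / 2 := by
      rw [Real.rpow_neg hx0R.le, ← one_div]
      exact one_div_le_one_div_of_le (by norm_num) e2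
    have h5 : (Q : ℝ) * (x : ℝ) ^ (-(δ / 16)) ≤ Q * (1 / 2) := mul_le_mul_of_nonneg_left h4 hQ0.le
    linarith
  have hsum : (((Ioc Q (2 * Q)).filter (fun q => (c0 ≤ V x q ∧
      Real.sqrt (c0 / Nat.totient q) ≤ E x q))).card : ℝ) * Real.sqrt (c0 / (2 * Q)) ≤ S θ x := by
    unfold S
    rw [← nsmul_eq_mul, ← sum_const]
    have hsub : (Ioc Q (2 * Q)).filter (fun q => (c0 ≤ V x q ∧
      Real.sqrt (c0 / Nat.totient q) ≤ E x q)) ⊆ Icc 1 ⌊(x : ℝ) ^ θ⌋₊ := by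
      intro q hq
      rw [mem_filter, mem_Ioc] at hq
      rw [mem_Icc]
      refine ⟨by omega, ?_⟩
      apply Nat.le_floor
      have : (q : ℝ) ≤ 2 * Q := by exact_mod_cast hq.1.2
      linarith
    refine le_trans ?_ (sum_le_sum_of_subset_of_nonneg hsub (fun q _ _ => E_nonneg x q))
    apply sum_le_sum
    intro q hq
    rw [mem_filter, mem_Ioc] at hq
    refine le_trans ?_ hq.2.2
    apply Real.sqrt_le_sqrt
    have hq0 : 0 < q := by omega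
    apply div_le_div_of_nonneg_left hc0pos.le
    · exact_mod_cast Nat.totient_pos.2 hq0
    · have h6 : Nat.totient q ≤ q := Nat.totient_le q
      exact_mod_cast h6.trans hq.1.2
  have hfin : (Q : ℝ) / 2 * Real.sqrt (c0 / (2 * Q)) ≤ S θ x := by
    refine le_trans ?_ hsum
    apply mul_le_mul_of_nonneg_right hgood (Real.sqrt_nonneg _)
  refine le_trans ?_ hfin
  -- compare squares
  have hpow : (x : ℝ) ^ ((1 + θ) / 2) = Real.sqrt (x * z) := by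
    rw [Real.sqrt_eq_rpow, hz]
    nth_rewrite 2 [← Real.rpow_one (x : ℝ)]
    rw [← Real.rpow_add hx0R, ← Real.rpow_mul hx0R.le]
    congr 1
    ring
  have hL : Real.sqrt (2 * θ - 1) / 2 ^ 17 * ((x : ℝ) ^ ((1 + θ) / 2) / Real.sqrt (Real.log x)) =
      Real.sqrt ((2 * θ - 1) * (x * z / Real.log x) / 2 ^ 34) := by
    have e17 : Real.sqrt ((2 : ℝ) ^ 34) = 2 ^ 17 := by
      rw [show ((2 : ℝ) ^ 34) = (2 ^ 17) ^ 2 by norm_num]
      exact Real.sqrt_sq (by positivity)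
    rw [hpow, Real.sqrt_div (by
        have : 0 ≤ 2 * θ - 1 := by linarith
        positivity), Real.sqrt_mul (show (0 : ℝ) ≤ 2 * θ - 1 by linarith), Real.sqrt_div (by positivity), e17]
    ring
  have hRr : (Q : ℝ) / 2 * Real.sqrt (c0 / (2 * Q)) = Real.sqrt (c0 * Q / 8) := by
    have h7 : (Q : ℝ) / 2 = Real.sqrt ((Q / 2) ^ 2) := (Real.sqrt_sq (by positivity)).symm
    rw [h7, ← Real.sqrt_mul (by positivity)]
    congr 1
    field_simp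
    ring
  rw [hL, hRr]
  apply Real.sqrt_le_sqrt
  have h8 : (2 * θ - 1) = 4 * δ := by rw [hδdef]; ring
  rw [h8, hc0]
  calc 4 * δ * (x * z / Real.log x) / 2 ^ 34 = δ / 2 ^ 27 * (x / Real.log x) * (z / 4) / 8 := by ring
    _ ≤ δ / 2 ^ 27 * (x / Real.log x) * Q / 8 := by gcongr

/-- **Main result.** (1) For `0 < δ ≤ 1/2`, all `x ≥ x₀(δ)` and all integers `Q` with `x^(1/2+δ) ≤ Q ≤ x`:
all but at most `Q x^(-δ/16)` of the moduli `q ∈ (Q, 2Q]` have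
`∑_{(a,q)=1} (π(x;q,a) - π(x)/φ(q))² ≥ 2⁻²⁷ δ x / log x` and
`E(x;q) ≥ (2⁻²⁷ δ x / (φ(q) log x))^(1/2)`.
(2) For `1/2 < θ ≤ 1` and all `x ≥ x₀(θ)`: `S_θ(x) ≥ 2⁻¹⁷ (2θ-1)^(1/2) x^((1+θ)/2) / (log x)^(1/2)`. -/
theorem result :
    (∀ δ : ℝ, 0 < δ → δ ≤ 1 / 2 → ∃ x0 : ℕ, ∀ x : ℕ, x0 ≤ x → ∀ Q : ℕ,
      (x : ℝ) ^ (1 / 2 + δ) ≤ Q → Q ≤ x →
      (((Ioc Q (2 * Q)).filter (fun q => ¬ (δ / 2 ^ 27 * (x / Real.log x) ≤ V x q ∧
        Real.sqrt (δ / 2 ^ 27 * (x / Real.log x) / Nat.totient q) ≤ E x q))).card : ℝ) ≤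
        Q * (x : ℝ) ^ (-(δ / 16))) ∧
    (∀ θ : ℝ, 1 / 2 < θ → θ ≤ 1 → ∃ x0 : ℕ, ∀ x : ℕ, x0 ≤ x →
      Real.sqrt (2 * θ - 1) / 2 ^ 17 * ((x : ℝ) ^ ((1 + θ) / 2) / Real.sqrt (Real.log x)) ≤ S θ x) :=
  ⟨part1, part2⟩

end Pool.Agent.Results.MP_a78e8f_nt.LowerBoundForTheSum
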