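import Mathlib
import Pool.Agent.H52.LO.A9

/-!
# MP_a78e8f_nt : the mean absolute error, and errors of both signs

For `x ^ (2/3 + δ) ≤ Q ≤ x`, all but `Q / (log x) ^ k` of the moduli `q` in `(Q, 2Q]` have both
`∑_a max(π(x;q,a) - π(x)/φ(q), 0)` and `∑_a max(π(x)/φ(q) - π(x;q,a), 0)` at least
`(x q)^(1/2) (log x)^(-5k-14)`; in particular the mean over the reduced classes of the absolute error is
at least `(x/q)^(1/2) (log x)^(-5k-14)`, and there are reduced classes with an excess and reduced classes with a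
deficiency of this size.  The one-sided Elliott–Halberstam sums are at least `x^((1+θ)/2) (log x)^(-20)`
for every `2/3 < θ ≤ 1` and all large `x`.
-/

set_option autoImplicit false

open Finset

namespace Pool.Agent.Results.MP_a78e8f_nt.MeanAbsoluteError

open Pool.Agent.H52

/-- `π(x;q,a) - π(x)/φ(q)` for a residue `a` -/
noncomputable def Δ (x q a : ℕ) : ℝ :=
  (((Icc 1 x).filter (fun p : ℕ => Nat.Prime p ∧ p % q = a)).card : ℝ) -
    (Nat.primeCounting x : ℝ) / (Nat.totient q : ℝ)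

/-- the reduced residues mod `q` -/
def red (q : ℕ) : Finset ℕ := (range q).filter (fun a => a.Coprime q)

/-- `π(x;q,a) - π(x)/φ(q)` for a unit `a`, as in the problem -/
noncomputable def D (x q : ℕ) (a : (ZMod q)ˣ) : ℝ :=
  (((Finset.Icc 1 x).filter
        (fun p : ℕ => Nat.Prime p ∧ ((p : ZMod q) = ((a : (ZMod q)ˣ) : ZMod q)))).card : ℝ)
      - (Nat.primeCounting x : ℝ) / (Nat.totient q : ℝ)

/-- the largest excess over the reduced classes -/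
noncomputable def Eplus (x q : ℕ) : ℝ := ⨆ a : (ZMod q)ˣ, max (D x q a) 0

/-- the largest deficiency over the reduced classes -/
noncomputable def Eminus (x q : ℕ) : ℝ := ⨆ a : (ZMod q)ˣ, max (-D x q a) 0

lemma D_eq (x q a : ℕ) (ha : a < q) (hc : a.Coprime q) :
    D x q (ZMod.unitOfCoprime a hc) = Δ x q a := by
  unfold D Δ
  simp only [ZMod.coe_unitOfCoprime]
  have h2 : (Icc 1 x).filter (fun p : ℕ => Nat.Prime p ∧ p % q = a) =
      (Finset.Icc 1 x).filter (fun p : ℕ => Nat.Prime p ∧ ((p : ZMod q) = ((a : ℕ) : ZMod q))) := by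
    apply filter_congr
    intro p _
    rw [ZMod.natCast_eq_natCast_iff', Nat.mod_eq_of_lt ha]
  rw [h2]

lemma Eplus_ge (x q a : ℕ) (hq : 0 < q) (ha : a < q) (hc : a.Coprime q) : max (Δ x q a) 0 ≤ Eplus x q := by
  have : NeZero q := ⟨hq.ne'⟩
  have h1 := le_ciSup (f := fun a : (ZMod q)ˣ => max (D x q a) 0) (Set.finite_range _).bddAbove
      (ZMod.unitOfCoprime a hc)
  rw [D_eq x q a ha hc] at h1
  exact h1

lemma Eminus_ge (x q a : ℕ) (hq : 0 < q) (ha : a < q) (hc : a.Coprime q) : max (-Δ x q a) 0 ≤ Eminus x q := by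
  have : NeZero q := ⟨hq.ne'⟩
  have h1 := le_ciSup (f := fun a : (ZMod q)ˣ => max (-D x q a) 0) (Set.finite_range _).bddAbove
      (ZMod.unitOfCoprime a hc)
  rw [D_eq x q a ha hc] at h1
  exact h1

lemma Eplus_nonneg (x q : ℕ) : 0 ≤ Eplus x q := Real.iSup_nonneg fun _ => le_max_right _ _

lemma Eminus_nonneg (x q : ℕ) : 0 ≤ Eminus x q := Real.iSup_nonneg fun _ => le_max_right _ _

lemma red_card (q : ℕ) : (red q).card = Nat.totient q := by
  unfold red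
  rw [Nat.totient_eq_card_coprime]
  congr 1
  ext b
  simp only [mem_filter, mem_range]
  rw [Nat.coprime_comm]

lemma pi_eq (x : ℕ) : Nat.primeCounting x = (Pr x).card := by
  rw [Nat.primeCounting, Nat.primeCounting', Nat.count_eq_card_filter_range]
  unfold Pr
  congr 1
  ext p
  rw [mem_filter, mem_filter, mem_range, mem_Icc]
  constructor
  · rintro ⟨h1, h2⟩
    exact ⟨⟨h2.pos, by omega⟩, h2⟩
  · rintro ⟨h1, h2⟩
    exact ⟨by omega, h2⟩

lemma L1_eq (x q : ℕ) : LO.L1 x q (((Pr x).card : ℝ) / Nat.totient q) = ∑ a ∈ red q, |Δ x q a| := by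
  unfold LO.L1 red Δ pc
  rw [pi_eq]

/-- the sum of the errors over the reduced classes is `- #{p ≤ x : p ∣ q}` -/
lemma sum_Δ (x q : ℕ) (hq : 0 < q) :
    ∑ a ∈ red q, Δ x q a ≤ 0 ∧ -(q.divisors.card : ℝ) ≤ ∑ a ∈ red q, Δ x q a := by
  have h1 : ∑ a ∈ red q, Δ x q a = (((Pr x).filter (fun p => p.Coprime q)).card : ℝ) - (Pr x).card := by
    have h2 := cls_sum x q hq (fun _ => 1)
    simp only [one_mul, sum_const, nsmul_eq_mul, mul_one] at h2
    rw [← h2]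
    unfold Δ
    rw [sum_sub_distrib, sum_const, red_card, nsmul_eq_mul, pi_eq]
    have hφ : (0 : ℝ) < Nat.totient q := by exact_mod_cast Nat.totient_pos.2 hq
    have h3 : (Nat.totient q : ℝ) * (((Pr x).card : ℝ) / Nat.totient q) = (Pr x).card := by
      field_simp
    rw [h3]
    rfl
  have h2 : ((Pr x).filter (fun p => p.Coprime q)).card + ((Pr x).filter (fun p => ¬ p.Coprime q)).card = (Pr x).card :=
    card_filter_add_card_filter_not _
  have h3 : ((Pr x).filter (fun p => ¬ p.Coprime q)).card ≤ q.divisors.card := by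
    apply card_le_card
    intro p hp
    unfold Pr at hp
    rw [mem_filter, mem_filter] at hp
    rw [Nat.mem_divisors]
    refine ⟨?_, hq.ne'⟩
    by_contra hcon
    exact hp.2 ((Nat.Prime.coprime_iff_not_dvd hp.1.2).2 hcon)
  have h4 : (((Pr x).filter (fun p => p.Coprime q)).card : ℝ) +
      (((Pr x).filter (fun p => ¬ p.Coprime q)).card : ℝ) = (Pr x).card := by exact_mod_cast h2
  have h5 : (((Pr x).filter (fun p => ¬ p.Coprime q)).card : ℝ) ≤ q.divisors.card := by exact_mod_cast h3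
  have h6 : (0 : ℝ) ≤ (((Pr x).filter (fun p => ¬ p.Coprime q)).card : ℝ) := by positivity
  rw [h1]
  constructor <;> linarith

/-- from the sum of the absolute values to both signs -/
lemma signs (x q : ℕ) (hq : 0 < q) (Z : ℝ) (h : 3 * Z ≤ ∑ a ∈ red q, |Δ x q a|) (hτ : (q.divisors.card : ℝ) ≤ Z) :
    Z ≤ ∑ a ∈ red q, max (Δ x q a) 0 ∧ Z ≤ ∑ a ∈ red q, max (-Δ x q a) 0 := by
  obtain ⟨h1, h2⟩ := sum_Δ x q hq
  have h3 : ∑ a ∈ red q, max (Δ x q a) 0 = (∑ a ∈ red q, |Δ x q a| + ∑ a ∈ red q, Δ x q a) / 2 := by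
    rw [← sum_add_distrib, sum_div]
    apply sum_congr rfl
    intro a _
    rcases le_total 0 (Δ x q a) with h | h
    · rw [max_eq_left h, abs_of_nonneg h]; ring
    · rw [max_eq_right h, abs_of_nonpos h]; ring
  have h4 : ∑ a ∈ red q, max (-Δ x q a) 0 = (∑ a ∈ red q, |Δ x q a| - ∑ a ∈ red q, Δ x q a) / 2 := by
    rw [← sum_sub_distrib, sum_div]
    apply sum_congr rfl
    intro a _
    rcases le_total 0 (Δ x q a) with h | h
    · rw [max_eq_right (by linarith), abs_of_nonneg h]; ring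
    · rw [max_eq_left (by linarith), abs_of_nonpos h]; ring
  have hτ0 : (0 : ℝ) ≤ q.divisors.card := by positivity
  rw [h3, h4]
  constructor <;> linarith

/-- from the sum over the classes to the maximum -/
lemma to_max (x q : ℕ) (hq : 0 < q) (Z M : ℝ) (f : ℕ → ℝ) (hZ : Real.sqrt (x * q) / Z ≤ ∑ a ∈ red q, f a)
    (hZ0 : 0 < Z) (hM : ∀ a ∈ red q, f a ≤ M) (hM0 : 0 ≤ M) : Real.sqrt ((x : ℝ) / q) / Z ≤ M := by
  have h1 : ∑ a ∈ red q, f a ≤ q * M := by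
    calc ∑ a ∈ red q, f a ≤ ∑ a ∈ red q, M := sum_le_sum hM
      _ = Nat.totient q * M := by rw [sum_const, red_card, nsmul_eq_mul]
      _ ≤ q * M := by
          apply mul_le_mul_of_nonneg_right _ hM0
          exact_mod_cast Nat.totient_le q
  have hq0 : (0 : ℝ) < q := by exact_mod_cast hq
  have h2 : Real.sqrt (x * q) = q * Real.sqrt ((x : ℝ) / q) := by
    have h3 : (x : ℝ) * q = q ^ 2 * (x / q) := by field_simp
    rw [h3, Real.sqrt_mul (by positivity), Real.sqrt_sq hq0.le]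
  rw [h2] at hZ
  have h4 : (q : ℝ) * (Real.sqrt ((x : ℝ) / q) / Z) ≤ q * M := by
    calc (q : ℝ) * (Real.sqrt ((x : ℝ) / q) / Z) = q * Real.sqrt ((x : ℝ) / q) / Z := by ring
      _ ≤ _ := hZ.trans h1
  exact le_of_mul_le_mul_left h4 hq0

theorem part1 (δ : ℝ) (hδ : 0 < δ) (hδ2 : δ ≤ 1 / 3) (k : ℕ) : ∃ x0 : ℕ, ∀ x : ℕ, x0 ≤ x → ∀ Q : ℕ,
    (x : ℝ) ^ (2 / 3 + δ) ≤ Q → Q ≤ x →
    ∃ X : Finset ℕ, (X.card : ℝ) ≤ Q / (Real.log x) ^ k ∧ ∀ q ∈ Ioc Q (2 * Q), q ∉ X →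
      Real.sqrt (x * q) / (Real.log x) ^ (5 * k + 14) ≤ ∑ a ∈ red q, max (Δ x q a) 0 ∧
      Real.sqrt (x * q) / (Real.log x) ^ (5 * k + 14) ≤ ∑ a ∈ red q, max (-Δ x q a) 0 ∧
      Real.sqrt ((x : ℝ) / q) / (Real.log x) ^ (5 * k + 14) ≤ Eplus x q ∧
      Real.sqrt ((x : ℝ) / q) / (Real.log x) ^ (5 * k + 14) ≤ Eminus x q := by
  obtain ⟨x0, hx0⟩ := LO.mean_abs δ hδ hδ2 k
  refine ⟨x0, fun x hx Q hQ1 hQ2 => ?_⟩
  obtain ⟨hlog, X, _, hX, hXq⟩ := hx0 x hx Q hQ1 hQ2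
  refine ⟨X, hX, fun q hq hqX => ?_⟩
  obtain ⟨h1, h2⟩ := hXq q hq hqX
  rw [L1_eq] at h1
  rw [mem_Ioc] at hq
  have hq0 : 0 < q := by omega
  obtain ⟨h3, h4⟩ := signs x q hq0 _ h1 h2
  have hZ0 : 0 < (Real.log x) ^ (5 * k + 14) := by positivity
  refine ⟨h3, h4, ?_, ?_⟩
  · apply to_max x q hq0 _ _ _ h3 hZ0 _ (Eplus_nonneg x q)
    intro a ha
    unfold red at ha
    rw [mem_filter, mem_range] at ha
    exact Eplus_ge x q a hq0 ha.1 ha.2
  · apply to_max x q hq0 _ _ _ h4 hZ0 _ (Eminus_nonneg x q)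
    intro a ha
    unfold red at ha
    rw [mem_filter, mem_range] at ha
    exact Eminus_ge x q a hq0 ha.1 ha.2

open Filter in
theorem part2 (θ : ℝ) (hθ : 2 / 3 < θ) (hθ1 : θ ≤ 1) : ∃ x0 : ℕ, ∀ x : ℕ, x0 ≤ x →
    (x : ℝ) ^ ((1 + θ) / 2) / (Real.log x) ^ 20 ≤ ∑ q ∈ Icc 1 ⌊(x : ℝ) ^ θ⌋₊, Eplus x q ∧
    (x : ℝ) ^ ((1 + θ) / 2) / (Real.log x) ^ 20 ≤ ∑ q ∈ Icc 1 ⌊(x : ℝ) ^ θ⌋₊, Eminus x q := by
  obtain ⟨δ, hδdef⟩ : ∃ δ : ℝ, δ = (θ - 2 / 3) / 2 := ⟨_, rfl⟩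
  have hδ : 0 < δ := by linarith
  have hδ2 : δ ≤ 1 / 3 := by linarith
  obtain ⟨x0, hx0⟩ := part1 δ hδ hδ2 1
  have h1 : ∀ᶠ y : ℝ in atTop, 4 ≤ y ^ δ := (tendsto_rpow_atTop hδ).eventually_ge_atTop _
  have h2 : ∀ᶠ y : ℝ in atTop, 8 ≤ Real.log y := Real.tendsto_log_atTop.eventually_ge_atTop _
  obtain ⟨y0, hy0⟩ := ((h1.and h2).and (eventually_ge_atTop (16 : ℝ))).exists_forall_of_atTop
  refine ⟨x0 + ⌈y0⌉₊, fun x hx => ?_⟩
  have hxy : y0 ≤ x := by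
    have := Nat.le_ceil y0
    have h2 : ((⌈y0⌉₊ : ℕ) : ℝ) ≤ x := by exact_mod_cast (by omega : ⌈y0⌉₊ ≤ x)
    linarith
  obtain ⟨⟨e1, e2⟩, e3⟩ := hy0 x hxy
  have hx0R : (0 : ℝ) < x := by linarith
  have hx1 : (1 : ℝ) ≤ x := by linarith
  obtain ⟨g, hg⟩ : ∃ g, g = Real.log x := ⟨_, rfl⟩
  rw [← hg] at e2 ⊢
  have hg0 : 0 < g := by linarith
  set z : ℝ := (x : ℝ) ^ θ with hz
  have hz0 : 0 < z := by positivity
  have hzs : z = (x : ℝ) ^ (2 / 3 + δ) * (x : ℝ) ^ δ := by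
    rw [← Real.rpow_add hx0R, hz]
    congr 1
    rw [hδdef]
    ring
  have hz4 : 4 * (x : ℝ) ^ (2 / 3 + δ) ≤ z := by
    rw [hzs, mul_comm]
    gcongr
  have hhalf : (4 : ℝ) ≤ (x : ℝ) ^ (2 / 3 + δ) := by
    calc (4 : ℝ) ≤ (x : ℝ) ^ δ := e1
      _ ≤ (x : ℝ) ^ (2 / 3 + δ) := Real.rpow_le_rpow_of_exponent_le hx1 (by linarith)
  set Q : ℕ := ⌊z / 2⌋₊ with hQ
  have hQle : (Q : ℝ) ≤ z / 2 := Nat.floor_le (by positivity)
  have hQlt : z / 2 < Q + 1 := Nat.lt_floor_add_one _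
  have hQ4 : z / 4 ≤ Q := by linarith
  have hQ0 : (0 : ℝ) < Q := by linarith
  have hQ1 : (x : ℝ) ^ (2 / 3 + δ) ≤ Q := by linarith
  have hzx : z ≤ x := by
    calc z ≤ (x : ℝ) ^ (1 : ℝ) := Real.rpow_le_rpow_of_exponent_le hx1 hθ1
      _ = x := Real.rpow_one _
  have hQx : Q ≤ x := by
    have : (Q : ℝ) ≤ x := by linarith
    exact_mod_cast this
  obtain ⟨X, hX, hXq⟩ := hx0 x (by omega) Q hQ1 hQx
  rw [← hg, pow_one] at hX
  rw [← hg] at hXq
  set G := (Ioc Q (2 * Q)).filter (fun q => q ∉ X) with hG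
  have hGcard : (Q : ℝ) / 2 ≤ G.card := by
    have h3 : ((Ioc Q (2 * Q)).filter (fun q => ¬ (q ∉ X))).card + G.card = Q := by
      rw [hG, add_comm, card_filter_add_card_filter_not, Nat.card_Ioc]
      omega
    have h4 : ((Ioc Q (2 * Q)).filter (fun q => ¬ (q ∉ X))).card ≤ X.card := by
      apply card_le_card
      intro q hq
      rw [mem_filter, not_not] at hq
      exact hq.2
    have h5 : (Q : ℝ) ≤ X.card + G.card := by
      have : Q ≤ X.card + G.card := by omega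
      exact_mod_cast this
    have h6 : (Q : ℝ) / g ≤ Q / 2 := by
      apply div_le_div_of_nonneg_left hQ0.le (by norm_num)
      linarith
    linarith
  have hGsub : G ⊆ Icc 1 ⌊z⌋₊ := by
    intro q hq
    rw [hG, mem_filter, mem_Ioc] at hq
    rw [mem_Icc]
    refine ⟨by omega, ?_⟩
    apply Nat.le_floor
    have : (q : ℝ) ≤ 2 * Q := by exact_mod_cast hq.1.2
    linarith
  have hpow : (x : ℝ) ^ ((1 + θ) / 2) = Real.sqrt (x * z) := by
    rw [Real.sqrt_eq_rpow, hz]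
    nth_rewrite 2 [← Real.rpow_one (x : ℝ)]
    rw [← Real.rpow_add hx0R, ← Real.rpow_mul hx0R.le]
    congr 1
    ring
  have key : ∀ F : ℕ → ℝ, (∀ q, 0 ≤ F q) → (∀ q ∈ G, Real.sqrt ((x : ℝ) / q) / g ^ (5 * 1 + 14) ≤ F q) →
      (x : ℝ) ^ ((1 + θ) / 2) / g ^ 20 ≤ ∑ q ∈ Icc 1 ⌊z⌋₊, F q := by
    intro F hF0 hF
    have h3 : (G.card : ℝ) * (Real.sqrt ((x : ℝ) / (2 * Q)) / g ^ 19) ≤ ∑ q ∈ Icc 1 ⌊z⌋₊, F q := by
      refine le_trans ?_ (sum_le_sum_of_subset_of_nonneg hGsub (fun q _ _ => hF0 q))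
      rw [← nsmul_eq_mul, ← sum_const]
      apply sum_le_sum
      intro q hq
      refine le_trans ?_ (hF q hq)
      rw [hG, mem_filter, mem_Ioc] at hq
      apply div_le_div_of_nonneg_right _ (by positivity)
      apply Real.sqrt_le_sqrt
      apply div_le_div_of_nonneg_left hx0R.le
      · have : 0 < q := by omega
        exact_mod_cast this
      · exact_mod_cast hq.1.2
    refine le_trans ?_ h3
    have h4 : (Q : ℝ) / 2 * (Real.sqrt ((x : ℝ) / (2 * Q)) / g ^ 19) ≤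
        (G.card : ℝ) * (Real.sqrt ((x : ℝ) / (2 * Q)) / g ^ 19) :=
      mul_le_mul_of_nonneg_right hGcard (by positivity)
    refine le_trans ?_ h4
    have h5 : Real.sqrt (x * z) ≤ g * ((Q : ℝ) / 2 * Real.sqrt ((x : ℝ) / (2 * Q))) := by
      have h6 : Real.sqrt (x * z) ≤ 8 * ((Q : ℝ) / 2 * Real.sqrt ((x : ℝ) / (2 * Q))) := by
        rw [Real.sqrt_le_left (by positivity), mul_pow, mul_pow, Real.sq_sqrt (by positivity)]
        have h7 : (8 : ℝ) ^ 2 * (((Q : ℝ) / 2) ^ 2 * (x / (2 * Q))) = 8 * (x * Q) := by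
          field_simp
          ring
        rw [h7]
        calc (x : ℝ) * z ≤ x * (4 * Q) := by gcongr; linarith
          _ ≤ 8 * (x * Q) := by
              have : 0 ≤ (x : ℝ) * Q := by positivity
              linarith
      refine h6.trans ?_
      apply mul_le_mul_of_nonneg_right e2 (by positivity)
    rw [hpow, div_le_iff₀ (by positivity)]
    calc Real.sqrt (x * z) ≤ g * ((Q : ℝ) / 2 * Real.sqrt ((x : ℝ) / (2 * Q))) := h5
      _ = (Q : ℝ) / 2 * (Real.sqrt ((x : ℝ) / (2 * Q)) / g ^ 19) * g ^ 20 := by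
          field_simp
  constructor
  · apply key _ (Eplus_nonneg x)
    intro q hq
    rw [hG, mem_filter] at hq
    exact (hXq q hq.1 hq.2).2.2.1
  · apply key _ (Eminus_nonneg x)
    intro q hq
    rw [hG, mem_filter] at hq
    exact (hXq q hq.1 hq.2).2.2.2

theorem result :
    (∀ δ : ℝ, 0 < δ → δ ≤ 1 / 3 → ∀ k : ℕ, ∃ x0 : ℕ, ∀ x : ℕ, x0 ≤ x → ∀ Q : ℕ,
      (x : ℝ) ^ (2 / 3 + δ) ≤ Q → Q ≤ x →
      ∃ X : Finset ℕ, (X.card : ℝ) ≤ Q / (Real.log x) ^ k ∧ ∀ q ∈ Ioc Q (2 * Q), q ∉ X →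
        Real.sqrt (x * q) / (Real.log x) ^ (5 * k + 14) ≤ ∑ a ∈ red q, max (Δ x q a) 0 ∧
        Real.sqrt (x * q) / (Real.log x) ^ (5 * k + 14) ≤ ∑ a ∈ red q, max (-Δ x q a) 0 ∧
        Real.sqrt ((x : ℝ) / q) / (Real.log x) ^ (5 * k + 14) ≤ Eplus x q ∧
        Real.sqrt ((x : ℝ) / q) / (Real.log x) ^ (5 * k + 14) ≤ Eminus x q) ∧
    (∀ θ : ℝ, 2 / 3 < θ → θ ≤ 1 → ∃ x0 : ℕ, ∀ x : ℕ, x0 ≤ x →
      (x : ℝ) ^ ((1 + θ) / 2) / (Real.log x) ^ 20 ≤ ∑ q ∈ Icc 1 ⌊(x : ℝ) ^ θ⌋₊, Eplus x q ∧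
      (x : ℝ) ^ ((1 + θ) / 2) / (Real.log x) ^ 20 ≤ ∑ q ∈ Icc 1 ⌊(x : ℝ) ^ θ⌋₊, Eminus x q) :=
  ⟨part1, part2⟩

end Pool.Agent.Results.MP_a78e8f_nt.MeanAbsoluteError
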