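import Pool.Agent.H43.EH.C2

/-!
The Elliott-Halberstam bound, in absolute values and with the maximum over `y ≤ x`, up to the level
`x / (log x)^B`, for almost all residues `a` in short intervals: length `A ≥ x^(1/3) (log x)^B` for
all moduli, `A ≥ x^(1/6+ε)` for the moduli `q ≤ (A x)^(1/2) / (log x)^B` and
`x (log x)^B / A ≤ q ≤ x / (log x)^B`.

The large moduli are treated by writing `p = q m + a` with a small cofactor `m`: the variance over
`q` and `a` becomes a variance of the primes in the residue classes modulo the differences of the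
cofactors, in almost all short intervals (Huxley), plus a second moment of the sieve model.
-/

set_option autoImplicit false

namespace Pool.Agent.Results.MP_a78e8f_nt.ShortIntervalsOfResidues

open Finset

/-- `π(y; q, a)`: the number of primes `p ≤ y` with `p ≡ a (mod q)`, for an integer `a` -/
def primePiAP (y q : ℕ) (a : ℤ) : ℕ :=
  ((Icc 1 y).filter (fun p : ℕ => p.Prime ∧ (p : ℤ) ≡ a [ZMOD q])).card

/-- `π(y)`: the number of primes `p ≤ y` -/
def primePi (y : ℕ) : ℕ := ((Icc 1 y).filter (fun p : ℕ => p.Prime)).card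

/-- the maximum over the integers `0 ≤ y ≤ x` of `|π(y; q, a) - π(y)/φ(q)|` -/
noncomputable def maxErr (x q : ℕ) (a : ℤ) : ℝ :=
  (range (x + 1)).sup' nonempty_range_add_one
    (fun y => |(primePiAP y q a : ℝ) - (primePi y : ℝ) / (Nat.totient q : ℝ)|)

/-- the sum of `max_{y ≤ x} |π(y; q, a) - π(y)/φ(q)|` over the moduli `q ≤ Q` coprime to `a` -/
noncomputable def T (x Q : ℕ) (a : ℤ) : ℝ :=
  ∑ q ∈ (Icc 1 Q).filter (fun q : ℕ => Int.gcd a q = 1), maxErr x q a

/-- **Elliott-Halberstam for almost all residues in short intervals.** -/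
theorem result (ε : ℝ) (hε : 0 < ε) (U : ℕ) : ∃ B x₀ : ℕ, ∀ x : ℕ, x₀ ≤ x → ∀ (A : ℕ) (a₀ : ℤ),
    (x : ℝ) ^ (1 / 6 + ε) ≤ A → (A : ℝ) ≤ (x : ℝ) ^ (1 - ε) →
    (|(a₀ : ℝ)| + A) ^ 2 * Real.log x ^ B ≤ A * x →
    (∑ a ∈ Ioc a₀ (a₀ + A), ∑ q ∈ (Icc 1 ⌊x / Real.log x ^ B⌋₊).filter (fun q : ℕ => Int.gcd a q = 1 ∧
      ((q : ℝ) ^ 2 * Real.log x ^ B ≤ A * x ∨ x * Real.log x ^ B ≤ (A : ℝ) * q)), maxErr x q a ≤
        A * (x / Real.log x ^ U)) ∧
    (x * Real.log x ^ (3 * B) ≤ (A : ℝ) ^ 3 →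
      ∑ a ∈ Ioc a₀ (a₀ + A), T x ⌊x / Real.log x ^ B⌋₊ a ≤ A * (x / Real.log x ^ U) ∧
      (((Ioc a₀ (a₀ + A)).filter (fun a : ℤ => x / Real.log x ^ U < T x ⌊x / Real.log x ^ B⌋₊ a)).card : ℝ) ≤
        A / Real.log x ^ U) := by
  obtain ⟨B, X1, h⟩ := Pool.Agent.H43.EH.mainT ε hε (2 * U)
  obtain ⟨X2, h2⟩ := Pool.Agent.H373R2.T7.ev_L' 1
  refine ⟨B, max X1 (max X2 3), fun x hx A a₀ hA hA2 ha => ?_⟩
  have c1 := (le_max_left _ _).trans hx
  have c2 := ((le_max_left _ _).trans (le_max_right _ _)).trans hx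
  have c3 := ((le_max_right _ _).trans (le_max_right _ _)).trans hx
  have hL := h2 x c2
  have hx3 : (3 : ℝ) ≤ x := by exact_mod_cast c3
  have hA0 : (0 : ℝ) < A := lt_of_lt_of_le (Real.rpow_pos_of_pos (by linarith) _) hA
  have k1 : ∑ a ∈ Ioc a₀ (a₀ + A), ∑ q ∈ (Icc 1 ⌊x / Real.log x ^ B⌋₊).filter (fun q : ℕ => Int.gcd a q = 1 ∧
      ((q : ℝ) ^ 2 * Real.log x ^ B ≤ A * x ∨ x * Real.log x ^ B ≤ (A : ℝ) * q)), maxErr x q a ≤
        A * x / Real.log x ^ (2 * U) := h x c1 A a₀ hA hA2 ha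
  have k2 : A * x / Real.log x ^ (2 * U) ≤ A * (x / Real.log x ^ U) := by
    rw [mul_div_assoc]
    apply mul_le_mul_of_nonneg_left _ hA0.le
    apply div_le_div_of_nonneg_left (by positivity) (by positivity)
    exact pow_le_pow_right₀ hL (by omega)
  refine ⟨k1.trans k2, fun h3 => ?_⟩
  have k3 : ∑ a ∈ Ioc a₀ (a₀ + A), T x ⌊x / Real.log x ^ B⌋₊ a ≤ A * x / Real.log x ^ (2 * U) := by
    refine le_trans (le_of_eq ?_) k1
    apply sum_congr rfl
    intro a _
    unfold T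
    apply sum_congr _ fun _ _ => rfl
    apply filter_congr
    intro q _
    constructor
    · intro h4
      exact ⟨h4, Pool.Agent.H43.EH.all_mod x A B (Real.log x) (by linarith) (by exact_mod_cast hA0) (by omega) h3 q⟩
    · intro h4
      exact h4.1
  refine ⟨k3.trans k2, ?_⟩
  have hT : ∀ a : ℤ, 0 ≤ T x ⌊x / Real.log x ^ B⌋₊ a := fun a =>
    sum_nonneg fun q _ => Pool.Agent.H43.EH.mErr_nonneg x q a
  have k4 : (((Ioc a₀ (a₀ + A)).filter (fun a : ℤ => x / Real.log x ^ U < T x ⌊x / Real.log x ^ B⌋₊ a)).card : ℝ) *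
      (x / Real.log x ^ U) ≤ A * x / Real.log x ^ (2 * U) := by
    refine le_trans ?_ k3
    rw [← nsmul_eq_mul, ← sum_const]
    refine (sum_le_sum fun a ha => (mem_filter.1 ha).2.le).trans ?_
    exact sum_le_sum_of_subset_of_nonneg (filter_subset _ _) fun a _ _ => hT a
  have k5 : A * x / Real.log x ^ (2 * U) = A / Real.log x ^ U * (x / Real.log x ^ U) := by
    rw [two_mul, pow_add]
    field_simp
  rw [k5] at k4
  exact le_of_mul_le_mul_right k4 (by positivity)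

end Pool.Agent.Results.MP_a78e8f_nt.ShortIntervalsOfResidues
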